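import Pool.Agent.W763.PB.Stm

set_option autoImplicit false

open MeasureTheory Filter Topology
open scoped InnerProductSpace BoundedContinuousFunction

namespace Pool.Agent.W496.PB

open Pool.Agent.W763.PB

theorem f3a : S_F3a := by
  intro L _ f g c hc hf hg
  have hnorm : ∀ N, ‖f N‖ ≤ c N := by
    intro N
    have h0 : 0 ≤ c N := (abs_nonneg _).trans (hf N 0)
    rw [BoundedContinuousFunction.norm_le h0]
    intro n
    rw [Real.norm_eq_abs]
    exact hf N n
  have hsum : Summable f := Summable.of_norm_bounded hc hnorm
  have hg' : ∑' N, f N = g := by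
    ext n
    have h1 := hsum.hasSum.mapL (BoundedContinuousFunction.evalCLM ℝ n)
    have h2 : HasSum (fun N => f N n) ((∑' N, f N) n) := h1
    exact h2.unique (hg n)
  have h3 := hsum.hasSum
  rw [hg'] at h3
  exact h3.mapL L

end Pool.Agent.W496.PB
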